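import Pool.Agent.TH215.CI.S3

/-!
# A non-free reflexive module with Cohen–Macaulay endomorphism ring and trivial class

Let `k` be a field, `R` the local ring at the origin of the ring
`k[a, b, c, u, v] / (a v - b u, b v - c u)`, a complete intersection of dimension three, and
`N = (a, b, c)`. Then `N` is a reflexive ideal of `R`, free of rank one on the punctured
spectrum, with `[N] = [R]` in the Grothendieck group of `R`, and `Hom(N, N) = R`, but `N` is not
free.
-/

set_option autoImplicit false

open RingTheory.Sequence IsLocalRing Pool.Agent.TH215.CI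

namespace Pool.Agent.Results.MP_a966df_ag.HomMCMNotFree

/-- `N` is locally free of constant rank `r` on the punctured spectrum of `R`: `N_p` is free of
rank `r` over `R_p` for every prime `p` other than the maximal ideal. -/
def LocFreeOfRank (R : Type) [CommRing R] [IsLocalRing R] (N : Type) [AddCommGroup N] [Module R N]
    (r : ℕ) : Prop :=
  ∀ (p : Ideal R) [p.IsPrime], p ≠ maximalIdeal R →
    Nonempty (LocalizedModule p.primeCompl N ≃ₗ[Localization.AtPrime p]
      (Fin r → Localization.AtPrime p))

/-- `M` is a maximal Cohen–Macaulay module over the Noetherian local ring `R`: it is finitely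
generated and there is an `M`-regular sequence in the maximal ideal of length `dim R`. -/
def IsMCM (R : Type) [CommRing R] [IsLocalRing R] (M : Type) [AddCommGroup M] [Module R M] :
    Prop :=
  Module.Finite R M ∧ ∃ rs : List R, (∀ r ∈ rs, r ∈ maximalIdeal R) ∧ IsRegular M rs ∧
    ((rs.length : ℕ) : WithBot ℕ∞) = ringKrullDim R

/-- `N` is a counterexample over `R`: a non-free reflexive module, locally free of constant rank
one on the punctured spectrum, whose class in the reduced Grothendieck group with rational
coefficients is zero (in fact `[N] = [R]` in the Grothendieck group), and such that `Hom(N, N)`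
is maximal Cohen–Macaulay (in fact isomorphic to `R`). -/
structure IsCounterexample (R : Type) [CommRing R] [IsLocalRing R] (N : Type) [AddCommGroup N]
    [Module R N] [Module.Finite R N] : Prop where
  reflexive : Module.IsReflexive R N
  locFree : LocFreeOfRank R N 1
  cls : gCls R N = gCls R R
  clsRedQ : gRedQ R N = 0
  hom : Nonempty ((N →ₗ[R] N) ≃ₗ[R] R)
  homMCM : IsMCM R (N →ₗ[R] N)
  not_free : ¬ Module.Free R N

section

variable (k : Type) [Field k]

lemma mem_max (t : T k) (ht : t ∈ mT k) : ι k t ∈ maximalIdeal (RL k) :=
  (IsLocalization.AtPrime.to_map_mem_maximal_iff (RL k) (mT k) t).2 ht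

lemma residue_bij : Function.Bijective (((residue (RL k)).comp (ι k)).comp (kT k)) := by
  refine ⟨RingHom.injective _, fun y => ?_⟩
  obtain ⟨y, rfl⟩ := residue_surjective y
  obtain ⟨⟨t, s⟩, h⟩ := IsLocalization.surj (mT k).primeCompl y
  have h1 : y * ι k s = ι k t := h
  have key : ∀ t : T k, residue (RL k) (ι k t) = residue (RL k) (ι k (kT k (evT k t))) := by
    intro t
    rw [← sub_eq_zero, ← map_sub, ← map_sub, residue_eq_zero_iff]
    refine mem_max k _ ?_
    rw [mem_mT, T.sub_e0, map_sub]
    change MvPolynomial.constantCoeff t.e0 -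
      MvPolynomial.constantCoeff (MvPolynomial.C (evT k t) : P k) = 0
    rw [MvPolynomial.constantCoeff_C]
    exact sub_self _
  have hs : evT k s ≠ 0 := fun h0 => s.2 h0
  refine ⟨evT k t / evT k s, ?_⟩
  have h2 := congrArg (residue (RL k)) h1
  rw [map_mul, key t, key s] at h2
  have h3 : residue (RL k) (ι k (kT k (evT k s))) ≠ 0 := by
    intro h0
    exact hs ((map_eq_zero (((residue (RL k)).comp (ι k)).comp (kT k))).1 h0)
  apply mul_right_cancel₀ h3
  rw [h2]
  change (((residue (RL k)).comp (ι k)).comp (kT k)) _ *
    (((residue (RL k)).comp (ι k)).comp (kT k)) _ = (((residue (RL k)).comp (ι k)).comp (kT k)) _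
  rw [← map_mul, div_mul_cancel₀ _ hs]

lemma mcm_of (R : Type) [CommRing R] [IsLocalRing R] [IsNoetherianRing R] (M : Type)
    [AddCommGroup M] [Module R M] (e : M ≃ₗ[R] R) (rs : List R) (h : IsRegular R rs)
    (hm : ∀ r ∈ rs, r ∈ maximalIdeal R) (hl : ((rs.length : ℕ) : WithBot ℕ∞) = ringKrullDim R) :
    IsMCM R M :=
  ⟨Module.Finite.equiv e.symm, rs, hm, (e.isRegular_congr rs).2 h, hl⟩

end

/-- For every field `k` there are a complete intersection local ring `R` of dimension three with
coefficient field `k` and a finitely generated `R`-module `N` that is reflexive, locally free of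
rank one on the punctured spectrum, has the class of `R` in the Grothendieck group `G(R)` (so that
its class in the reduced Grothendieck group with rational coefficients is zero), and whose
endomorphism module `Hom(N, N)` is isomorphic to `R`, hence maximal Cohen–Macaulay, but which is
not free. -/
theorem result (k : Type) [Field k] :
    ∃ (R : Type) (_ : CommRing R) (_ : IsLocalRing R) (_ : IsNoetherianRing R) (f : k →+* R),
      Function.Bijective ((residue R).comp f) ∧ IsLocalCI R ∧ ringKrullDim R = 3 ∧
      ∃ (N : Type) (_ : AddCommGroup N) (_ : Module R N) (_ : Module.Finite R N),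
        IsCounterexample R N := by
  obtain ⟨hci, hdim⟩ := ci_equiv k
  obtain ⟨e⟩ := end_equiv k
  refine ⟨RL k, inferInstance, inferInstance, inferInstance, (ι k).comp (kT k), residue_bij k,
    hci, hdim, NI k, inferInstance, inferInstance, inferInstance, inferInstance, ?_, cls_NI k,
    gRedQ_eq_zero (cls_NI k), ⟨e⟩, ?_, not_free k⟩
  · intro p _ hp
    exact loc_free k p hp
  · refine mcm_of (RL k) (NI k →ₗ[RL k] NI k) e _ (regR k) ?_ ?_
    · intro r hr
      simp only [List.mem_cons, List.not_mem_nil, or_false] at hr
      rcases hr with rfl | rfl | rfl <;> refine mem_max k _ ?_ <;> rw [mem_mT] <;>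
        simp [px, py, pz]
    · rw [hdim]
      rfl

end Pool.Agent.Results.MP_a966df_ag.HomMCMNotFree
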